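import Pool.Agent.helper16.PU.Spec2

/-!
# Project PU (MP_2e0e07_nt), row GRD: the graded pieces (helper30)
-/

set_option autoImplicit false

namespace Pool.Agent.PU

open Matrix Polynomial Pool.Agent.GO Pool.Agent.AR Pool.Agent.RG Pool.Agent.HZ Pool.Agent.DS
  Pool.Agent.AX Pool.Agent.UM NumberField

section

variable {Γ F κ : Type} [Group Γ] [NormedField F] [IsUltrametricDist F] [Field κ]

lemma GRD_norm {ρ : Γ →* Matrix (Fin 2) (Fin 2) F} (hint : ∀ g a b, ‖ρ g a b‖ ≤ 1) {e : ℝ}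
    (he1 : e < 1) {g : Γ} (hg : FIX_Q ρ e g) : ‖ρ g 0 0‖ = 1 := by
  obtain ⟨h1, h2, -⟩ := hg
  by_contra hne
  have hlt : ‖ρ g 0 0‖ < 1 := lt_of_le_of_ne (hint g 0 0) hne
  have hdet := FIX_det ρ hint g
  have h3 : ‖(ρ g).det‖ < 1 := by
    rw [Matrix.det_fin_two, sub_eq_add_neg]
    refine LFT_add' ?_ ?_
    · rw [norm_mul]
      calc ‖ρ g 0 0‖ * ‖ρ g 1 1‖ ≤ ‖ρ g 0 0‖ * 1 :=
            mul_le_mul_of_nonneg_left (hint g 1 1) (norm_nonneg _)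
        _ < 1 := by rw [mul_one]; exact hlt
    · rw [norm_neg, norm_mul]
      calc ‖ρ g 0 1‖ * ‖ρ g 1 0‖ ≤ ‖ρ g 0 1‖ * 1 :=
            mul_le_mul_of_nonneg_left (hint g 1 0) (norm_nonneg _)
        _ < 1 := by rw [mul_one]; exact lt_of_le_of_lt h1 he1
  rw [hdet] at h3
  exact lt_irrefl _ h3

lemma GRD_decomp {ρ : Γ →* Matrix (Fin 2) (Fin 2) F} (hint : ∀ g a b, ‖ρ g a b‖ ≤ 1) {e : ℝ}
    (he0 : 0 ≤ e) (he1 : e < 1) {g : Γ} (hg : FIX_Q ρ e g) :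
    ∃ Y : Matrix (Fin 2) (Fin 2) F, ρ g = (ρ g 0 0) • (1 + Y) ∧ ∀ a b, ‖Y a b‖ ≤ e := by
  have hc := GRD_norm hint he1 hg
  have hc0 : ρ g 0 0 ≠ 0 := by
    intro h0
    rw [h0, norm_zero] at hc
    exact zero_ne_one hc
  refine ⟨(ρ g 0 0)⁻¹ • (ρ g - (ρ g 0 0) • 1), ?_, ?_⟩
  · rw [smul_add, smul_smul, mul_inv_cancel₀ hc0, one_smul]
    abel
  · intro a b
    rw [Matrix.smul_apply, smul_eq_mul, norm_mul, norm_inv, hc, inv_one, one_mul]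
    exact FIX_Q_to ρ he0 hg a b

lemma GRD_of {ρ : Γ →* Matrix (Fin 2) (Fin 2) F} {red : F → κ} {r : ℝ} {π : F} {g : Γ}
    {X : Matrix (Fin 2) (Fin 2) κ} (h : LFT_LT ρ red r π g X) : FIX_Q ρ r g := by
  obtain ⟨-, c, Y, s, hc, hρ, hY, -⟩ := h
  apply FIX_Q_of ρ (c := c)
  intro a b
  rw [hρ, smul_add, add_sub_cancel_left, Matrix.smul_apply, smul_eq_mul, norm_mul, hc, one_mul]
  exact hY a b

lemma GRD_two {p : ℕ} [hp : Fact p.Prime] (hp2 : p ≠ 2) [CharP κ p] : (2 : κ) ≠ 0 := by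
  intro h
  have h1 : ((2 : ℕ) : κ) = 0 := by exact_mod_cast h
  rw [CharP.cast_eq_zero_iff κ p 2] at h1
  exact hp2 ((Nat.prime_dvd_prime_iff_eq hp.out Nat.prime_two).1 h1)

lemma GRD_exists {ρ : Γ →* Matrix (Fin 2) (Fin 2) F} {red : F → κ}
    (hint : ∀ g a b, ‖ρ g a b‖ ≤ 1) {r : ℝ} {π : F} (h2 : (2 : κ) ≠ 0)
    (hr0 : 0 < r) (hr1 : r < 1) {g : Γ} (hg : FIX_Q ρ r g) :
    ∃ X, LFT_LT ρ red r π g X := by
  obtain ⟨Y, hY, hYr⟩ := GRD_decomp hint hr0.le hr1 hg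
  refine ⟨(π⁻¹ • Y).map red + (-((π⁻¹ • Y).map red).trace / 2) • 1, ?_, ρ g 0 0, Y, _,
    GRD_norm hint hr1 hg, hY, hYr, rfl⟩
  rw [Matrix.trace_add, Matrix.trace_smul, Matrix.trace_one, Fintype.card_fin, smul_eq_mul]
  push_cast
  field_simp
  ring

omit [IsUltrametricDist F] in
lemma GRD_one {ρ : Γ →* Matrix (Fin 2) (Fin 2) F} {red : F → κ} (hred : IsRed red)
    {r : ℝ} {π : F} (h2 : (2 : κ) ≠ 0)
    {X : Matrix (Fin 2) (Fin 2) κ} (h : LFT_LT ρ red r π 1 X) : X = 0 := by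
  obtain ⟨ht, c, Y, s, hc, hρ, hY, hX⟩ := h
  have hc0 : c ≠ 0 := by
    intro h0
    rw [h0, norm_zero] at hc
    exact zero_ne_one hc
  have h01 : Y 0 1 = 0 := by
    have h3 := congrFun (congrFun hρ 0) 1
    simp [hc0] at h3
    exact h3
  have h10 : Y 1 0 = 0 := by
    have h3 := congrFun (congrFun hρ 1) 0
    simp [hc0] at h3
    exact h3
  have h00 : Y 0 0 = Y 1 1 := by
    have h3 := congrFun (congrFun hρ 0) 0
    have h4 := congrFun (congrFun hρ 1) 1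
    simp at h3 h4
    have h5 : c * (1 + Y 0 0) = c * (1 + Y 1 1) := by rw [← h3, ← h4]
    exact add_left_cancel (mul_left_cancel₀ hc0 h5)
  have e01 : X 0 1 = 0 := by
    rw [hX]
    simp [h01, LFT_red_zero hred]
  have e10 : X 1 0 = 0 := by
    rw [hX]
    simp [h10, LFT_red_zero hred]
  have e00 : X 0 0 = X 1 1 := by
    rw [hX]
    simp [h00]
  have e11 : X 1 1 = 0 := by
    rw [Matrix.trace_fin_two, e00] at ht
    have h6 : 2 * X 1 1 = 0 := by rw [two_mul]; exact ht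
    exact (mul_eq_zero.1 h6).resolve_left h2
  ext a b
  fin_cases a <;> fin_cases b
  · simpa [e11] using e00
  · simpa using e01
  · simpa using e10
  · simpa using e11

lemma GRD_unique {ρ : Γ →* Matrix (Fin 2) (Fin 2) F} {red : F → κ} (hred : IsRed red)
    (hint : ∀ g a b, ‖ρ g a b‖ ≤ 1) {r : ℝ} {π : F} (h2 : (2 : κ) ≠ 0) (hr0 : 0 < r) (hr1 : r < 1)
    (hπ : ‖π‖ = r) {g : Γ}
    {X X' : Matrix (Fin 2) (Fin 2) κ} (h : LFT_LT ρ red r π g X) (h' : LFT_LT ρ red r π g X') :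
    X = X' := by
  have h3 := LFT_lt_mul hred hr0 hr1 hπ h (LFT_lt_inv hred hr0 hr1 hπ hint h')
  rw [mul_inv_cancel] at h3
  have h4 := GRD_one hred h2 h3
  rw [← sub_eq_add_neg] at h4
  exact sub_eq_zero.1 h4

lemma GRD_small {ρ : Γ →* Matrix (Fin 2) (Fin 2) F} {red : F → κ} (hred : IsRed red)
    (hint : ∀ g a b, ‖ρ g a b‖ ≤ 1) {r r' : ℝ} {π : F} (hr0 : 0 < r) (hr1 : r < 1)
    (hπ : ‖π‖ = r) (hr' : 0 ≤ r') (hrr : r' < r) {g : Γ} (hg : FIX_Q ρ r' g) :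
    LFT_LT ρ red r π g 0 := by
  obtain ⟨Y, hY, hYr⟩ := GRD_decomp hint hr' (hrr.trans hr1) hg
  refine ⟨Matrix.trace_zero _ _, ρ g 0 0, Y, 0, GRD_norm hint (hrr.trans hr1) hg, hY,
    fun a b => (hYr a b).trans hrr.le, ?_⟩
  rw [zero_smul, add_zero, LFT_map_small hred]
  intro a b
  rw [Matrix.smul_apply, smul_eq_mul, norm_mul, norm_inv, hπ]
  calc r⁻¹ * ‖Y a b‖ ≤ r⁻¹ * r' := mul_le_mul_of_nonneg_left (hYr a b) (inv_nonneg.2 hr0.le)
    _ < r⁻¹ * r := mul_lt_mul_of_pos_left hrr (inv_pos.2 hr0)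
    _ = 1 := inv_mul_cancel₀ hr0.ne'

lemma GRD_zero {ρ : Γ →* Matrix (Fin 2) (Fin 2) F} {red : F → κ} (hred : IsRed red)
    {r r' : ℝ} {π : F} (hr0 : 0 < r)
    (hπ : ‖π‖ = r) (hgap : ∀ x : F, ‖x‖ < r → ‖x‖ ≤ r') {g : Γ}
    (h : LFT_LT ρ red r π g 0) : FIX_Q ρ r' g := by
  obtain ⟨-, c, Y, s, hc, hρ, hY, hX⟩ := h
  have hY1 : ∀ a b, ‖π⁻¹ * Y a b‖ ≤ 1 := by
    intro a b
    have := LFT_pi (π := π) (Y := Y) (r := 1) hr0 hπ (by simpa using hY) a b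
    rwa [Matrix.smul_apply, smul_eq_mul] at this
  have hscale : ∀ x : F, ‖π⁻¹ * x‖ < 1 → ‖x‖ ≤ r' := by
    intro x hx
    apply hgap
    rw [norm_mul, norm_inv, hπ] at hx
    calc ‖x‖ = r * (r⁻¹ * ‖x‖) := by rw [← mul_assoc, mul_inv_cancel₀ hr0.ne', one_mul]
      _ < r * 1 := mul_lt_mul_of_pos_left hx hr0
      _ = r := mul_one r
  have e01 : red (π⁻¹ * Y 0 1) = 0 := by
    have h3 := congrFun (congrFun hX 0) 1
    simpa using h3.symm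
  have e10 : red (π⁻¹ * Y 1 0) = 0 := by
    have h3 := congrFun (congrFun hX 1) 0
    simpa using h3.symm
  have e00 : red (π⁻¹ * Y 0 0) + s = 0 := by
    have h3 := congrFun (congrFun hX 0) 0
    simpa using h3.symm
  have e11 : red (π⁻¹ * Y 1 1) + s = 0 := by
    have h3 := congrFun (congrFun hX 1) 1
    simpa using h3.symm
  have hd1 : ‖π⁻¹ * (Y 0 0 - Y 1 1)‖ ≤ 1 := by
    rw [mul_sub]
    exact LFT_sub (hY1 0 0) (hY1 1 1)
  have e0 : red (π⁻¹ * (Y 0 0 - Y 1 1)) = 0 := by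
    have h3 : π⁻¹ * Y 0 0 = π⁻¹ * (Y 0 0 - Y 1 1) + π⁻¹ * Y 1 1 := by ring
    have h4 : red (π⁻¹ * Y 0 0) = red (π⁻¹ * (Y 0 0 - Y 1 1)) + red (π⁻¹ * Y 1 1) := by
      conv_lhs => rw [h3]
      exact hred.add _ _ hd1 (hY1 1 1)
    have h5 : red (π⁻¹ * Y 0 0) = red (π⁻¹ * Y 1 1) := by
      have h6 : red (π⁻¹ * Y 0 0) + s = red (π⁻¹ * Y 1 1) + s := by rw [e00, e11]
      exact add_right_cancel h6
    rw [h5] at h4
    exact add_right_cancel (b := red (π⁻¹ * Y 1 1)) (by rw [zero_add]; exact h4.symm)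
  have f01 := hscale _ ((hred.zero_iff _ (hY1 0 1)).1 e01)
  have f10 := hscale _ ((hred.zero_iff _ (hY1 1 0)).1 e10)
  have f0 := hscale _ ((hred.zero_iff _ hd1).1 e0)
  refine ⟨?_, ?_, ?_⟩
  · rw [hρ]
    simpa [hc] using f01
  · rw [hρ]
    simpa [hc] using f10
  · rw [hρ]
    have h3 : (c • (1 + Y)) 0 0 - (c • (1 + Y)) 1 1 = c * (Y 0 0 - Y 1 1) := by
      simp
      ring
    rw [h3, norm_mul, hc, one_mul]
    exact f0

end

theorem GRD : GRD_stmt := by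
  intro p hp hp2 Γ F κ _ _ _ _ _ _ red hred ρ hint π r r' hr0 hr1 hπ hr' hrr hgap Z
  have h2 : (2 : κ) ≠ 0 := GRD_two hp2
  have hex : ∀ g : ↥(FIX_L ρ hint r hr0.le ⊓ Z), ∃ X, LFT_LT ρ red r π (g : Γ) X :=
    fun g => GRD_exists hint h2 hr0 hr1 g.2.1
  choose f hf using hex
  have huniq : ∀ {g : Γ} {X X' : Matrix (Fin 2) (Fin 2) κ}, LFT_LT ρ red r π g X →
      LFT_LT ρ red r π g X' → X = X' := fun h h' => GRD_unique hred hint h2 hr0 hr1 hπ h h'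
  let φ : ↥(FIX_L ρ hint r hr0.le ⊓ Z) →* Multiplicative (Matrix (Fin 2) (Fin 2) κ) :=
    { toFun := fun g => Multiplicative.ofAdd (f g)
      map_one' := by
        have h3 : f 1 = 0 := huniq (hf 1) (LFT_lt_one hred hr0)
        rw [h3]
        rfl
      map_mul' := by
        intro g h
        have h3 : f (g * h) = f g + f h :=
          huniq (hf (g * h)) (LFT_lt_mul hred hr0 hr1 hπ (hf g) (hf h))
        rw [h3]
        rfl }
  have hker : (FIX_L ρ hint r' hr' ⊓ Z).subgroupOf (FIX_L ρ hint r hr0.le ⊓ Z) = φ.ker := by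
    ext g
    rw [Subgroup.mem_subgroupOf, MonoidHom.mem_ker]
    constructor
    · intro hg
      have h3 : f g = 0 := huniq (hf g) (GRD_small hred hint hr0 hr1 hπ hr' hrr hg.1)
      show Multiplicative.ofAdd (f g) = 1
      rw [h3]
      rfl
    · intro hg
      have h3 : f g = 0 := Multiplicative.ofAdd.injective hg
      have h4 := hf g
      rw [h3] at h4
      exact ⟨GRD_zero hred hr0 hπ hgap h4, g.2.2⟩
  rw [Subgroup.relIndex, hker, Subgroup.index_ker]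
  refine Nat.card_congr (Equiv.subtypeEquiv Multiplicative.toAdd ?_)
  intro x
  constructor
  · rintro ⟨g, rfl⟩
    exact ⟨(g : Γ), g.2.2, hf g⟩
  · rintro ⟨g, hgZ, hg⟩
    refine ⟨⟨g, GRD_of hg, hgZ⟩, ?_⟩
    have h3 : f ⟨g, GRD_of hg, hgZ⟩ = Multiplicative.toAdd x := huniq (hf _) hg
    show Multiplicative.ofAdd (f ⟨g, GRD_of hg, hgZ⟩) = x
    rw [h3]
    rfl

end Pool.Agent.PU
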